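import Pool.Agent.K1H73.ON.Stm

/-!
# The number of loops under a change of edges
-/

set_option autoImplicit false

namespace Pool.Agent.K1H99.ON

open Finset Pool.Agent.K1H73.ON

/-- The ends of the edges of `S`. -/
noncomputable def ends (S : Finset (Sym2 V)) : Finset V := by
  classical exact S.image (fun e => (Quot.out e).1) ∪ S.image (fun e => (Quot.out e).2)

theorem card_ends (S : Finset (Sym2 V)) : (ends S).card ≤ 2 * S.card := by
  classical
  unfold ends
  refine (Finset.card_union_le _ _).trans ?_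
  have h1 := Finset.card_image_le (s := S) (f := fun e : Sym2 V => (Quot.out e).1)
  have h2 := Finset.card_image_le (s := S) (f := fun e : Sym2 V => (Quot.out e).2)
  omega

theorem mem_ends {S : Finset (Sym2 V)} {e : Sym2 V} (he : e ∈ S) {v : V} (hv : v ∈ e) :
    v ∈ ends S := by
  classical
  have h1 : e = s((Quot.out e).1, (Quot.out e).2) := by
    conv_lhs => rw [← Quot.out_eq e]
  rw [h1, Sym2.mem_iff] at hv
  unfold ends
  rw [Finset.mem_union, Finset.mem_image, Finset.mem_image]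
  rcases hv with h | h
  · exact Or.inl ⟨e, he, h.symm⟩
  · exact Or.inr ⟨e, he, h.symm⟩

/-- The set counted by `loops`. -/
def LS (a : V) (ω : Finset (Sym2 V)) : Set (Set V) :=
  {C : Set V | ∃ v, (∃ e ∈ ω, v ∈ e) ∧ ¬ Conn ω a v ∧ C = {u | Conn ω v u}}

theorem LS_finite (a : V) (ω : Finset (Sym2 V)) : (LS a ω).Finite := by
  refine ((ends ω).finite_toSet.image (fun v => {u | Conn ω v u})).subset ?_
  rintro C ⟨v, ⟨e, he, hv⟩, -, rfl⟩
  exact ⟨v, Finset.mem_coe.2 (mem_ends he hv), rfl⟩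

theorem conn_of (ω ω' : Finset (Sym2 V)) (v : V)
    (h : ∀ u, Conn ω v u → Conn ω' v u → ∀ u', s(u, u') ∈ ω → s(u, u') ∈ ω') (u : V)
    (hu : Conn ω v u) : Conn ω' v u := by
  have hu' := (SimpleGraph.reachable_iff_reflTransGen _ _).1 hu
  induction hu' with
  | refl => exact SimpleGraph.Reachable.refl _
  | tail h1 h2 ih =>
    rename_i x y
    have h3 : Conn ω v x := (SimpleGraph.reachable_iff_reflTransGen _ _).2 h1
    have h4 := ih h3
    refine SimpleGraph.Reachable.trans h4 ?_
    refine SimpleGraph.Adj.reachable ?_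
    rw [SimpleGraph.fromEdgeSet_adj] at h2 ⊢
    exact ⟨Finset.mem_coe.2 (h x h3 h4 y (Finset.mem_coe.1 h2.1)), h2.2⟩

theorem LS_sub (a : V) (ω S : Finset (Sym2 V)) :
    LS a (symmDiff ω S) ⊆ LS a ω ∪ (fun x => {u | Conn (symmDiff ω S) x u}) '' (ends S : Set V) := by
  classical
  rintro C ⟨v, ⟨e, he, hv⟩, hav, rfl⟩
  by_cases hX : ∃ x ∈ ends S, Conn (symmDiff ω S) v x
  · obtain ⟨x, hx, hvx⟩ := hX
    refine Or.inr ⟨x, Finset.mem_coe.2 hx, ?_⟩
    ext u
    exact ⟨fun h => SimpleGraph.Reachable.trans hvx h,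
      fun h => SimpleGraph.Reachable.trans hvx.symm h⟩
  · push Not at hX
    have hmem : ∀ u, Conn (symmDiff ω S) v u → ∀ f : Sym2 V, u ∈ f → (f ∈ symmDiff ω S ↔ f ∈ ω) := by
      intro u hu f huf
      have hfS : f ∉ S := fun hf => hX u (mem_ends hf huf) hu
      rw [Finset.mem_symmDiff]
      constructor
      · rintro (h | h)
        · exact h.1
        · exact absurd h.1 hfS
      · intro h
        exact Or.inl ⟨h, hfS⟩
    have h1 : ∀ u, Conn (symmDiff ω S) v u → Conn ω v u :=
      conn_of _ _ v fun u hu _ u' hu' => (hmem u hu _ (Sym2.mem_mk_left u u')).1 hu'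
    have h2 : ∀ u, Conn ω v u → Conn (symmDiff ω S) v u :=
      conn_of _ _ v fun u _ hu u' hu' => (hmem u hu _ (Sym2.mem_mk_left u u')).2 hu'
    refine Or.inl ⟨v, ⟨e, (hmem v (SimpleGraph.Reachable.refl _) e hv).1 he, hv⟩, ?_, ?_⟩
    · intro h
      exact hav (h2 a (SimpleGraph.Reachable.symm h)).symm
    · ext u
      exact ⟨h1 u, h2 u⟩

/-- **Piece LP.** -/
theorem t_LP : LP := by
  intro a ω S
  change (LS a (symmDiff ω S)).ncard ≤ (LS a ω).ncard + 2 * S.card
  have hf : ((fun x => {u | Conn (symmDiff ω S) x u}) '' (ends S : Set V)).Finite :=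
    (ends S).finite_toSet.image _
  refine (Set.ncard_le_ncard (LS_sub a ω S) ((LS_finite a ω).union hf)).trans ?_
  refine (Set.ncard_union_le _ _).trans ?_
  refine Nat.add_le_add_left ?_ _
  refine (Set.ncard_image_le (ends S).finite_toSet).trans ?_
  rw [Set.ncard_coe_finset]
  exact card_ends S

end Pool.Agent.K1H99.ON
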